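import Pool.Agent.Work.MP_f36782_lg.Interface
import Pool.Agent.Work.MP_f36782_lf.B_LCT

set_option autoImplicit false

/-! Block PCM: partial continuous maps are given by list maps. -/

open MeasureTheory Pool.Agent.Work.RamseyAD Pool.LF

namespace Pool.LG

/-- The list decides that the point is in `U j` and that the `j`-th value is `b`. -/
def PCM_P (f : (ℕ → ℕ) → C) (D : Set (ℕ → ℕ)) (U : ℕ → Set (ℕ → ℕ)) (l : List ℕ) (j : ℕ)
    (b : Bool) : Prop :=
  ∃ m ≤ l.length, (∀ u : ℕ → ℕ, ini u m = l.take m → u ∈ U j) ∧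
    (∃ u ∈ D, ini u m = l.take m) ∧ ∀ u ∈ D, ini u m = l.take m → f u j = b

theorem PCM_uniq {f : (ℕ → ℕ) → C} {D : Set (ℕ → ℕ)} {U : ℕ → Set (ℕ → ℕ)} {l : List ℕ} {j : ℕ}
    {b b' : Bool} (h : PCM_P f D U l j b) (h' : PCM_P f D U l j b') : b = b' := by
  obtain ⟨m, hm, -, ⟨u, hu, hu1⟩, h3⟩ := h
  obtain ⟨m', hm', -, ⟨v, hv, hv1⟩, h3'⟩ := h'
  have key : ∀ (a c : ℕ) (w : ℕ → ℕ), a ≤ c → ini w c = l.take c → ini w a = l.take a := by
    intro a c w hac hw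
    have h4 := congrArg (List.take a) hw
    rw [LCT_take w a c hac, List.take_take, min_eq_left hac] at h4
    exact h4
  rcases le_total m m' with h | h
  · rw [← h3 v hv (key m m' v h hv1), ← h3' v hv hv1]
  · rw [← h3 u hu hu1, ← h3' u hu (key m' m u h hu1)]

theorem PCM_mono {f : (ℕ → ℕ) → C} {D : Set (ℕ → ℕ)} {U : ℕ → Set (ℕ → ℕ)} {l l' : List ℕ}
    (hl : l <+: l') {j : ℕ} {b : Bool} (h : PCM_P f D U l j b) : PCM_P f D U l' j b := by
  obtain ⟨m, hm, h1⟩ := h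
  have h2 : l'.take m = l.take m := by
    have h3 := List.prefix_iff_eq_take.mp hl
    rw [h3, List.take_take, min_eq_left hm]
  refine ⟨m, hm.trans hl.length_le, ?_⟩
  rw [h2]
  exact h1

/-- The first `k` values are decided. -/
def PCM_S (f : (ℕ → ℕ) → C) (D : Set (ℕ → ℕ)) (U : ℕ → Set (ℕ → ℕ)) (l : List ℕ) (k : ℕ) : Prop :=
  ∀ j < k, ∃ b, PCM_P f D U l j b

open Classical in
/-- The number of decided values. -/
noncomputable def PCM_K (f : (ℕ → ℕ) → C) (D : Set (ℕ → ℕ)) (U : ℕ → Set (ℕ → ℕ)) (l : List ℕ) :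
    ℕ := Nat.findGreatest (PCM_S f D U l) l.length

/-- The decided values. -/
noncomputable def PCM_v (f : (ℕ → ℕ) → C) (D : Set (ℕ → ℕ)) (U : ℕ → Set (ℕ → ℕ)) (l : List ℕ)
    (j : ℕ) : Bool := Classical.epsilon fun b => PCM_P f D U l j b

theorem PCM_KS (f : (ℕ → ℕ) → C) (D : Set (ℕ → ℕ)) (U : ℕ → Set (ℕ → ℕ)) (l : List ℕ) :
    PCM_S f D U l (PCM_K f D U l) := by
  classical
  unfold PCM_K
  exact Nat.findGreatest_spec (P := PCM_S f D U l) (Nat.zero_le l.length)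
    (fun j hj => absurd hj (Nat.not_lt_zero _))

theorem PCM_Kle (f : (ℕ → ℕ) → C) (D : Set (ℕ → ℕ)) (U : ℕ → Set (ℕ → ℕ)) (l : List ℕ) (k : ℕ)
    (h1 : k ≤ l.length) (h2 : PCM_S f D U l k) : k ≤ PCM_K f D U l := by
  classical
  unfold PCM_K
  exact Nat.le_findGreatest h1 h2

theorem PCM_Klen (f : (ℕ → ℕ) → C) (D : Set (ℕ → ℕ)) (U : ℕ → Set (ℕ → ℕ)) (l : List ℕ) :
    PCM_K f D U l ≤ l.length := by
  classical
  unfold PCM_K
  exact Nat.findGreatest_le _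

theorem PCM_vP (f : (ℕ → ℕ) → C) (D : Set (ℕ → ℕ)) (U : ℕ → Set (ℕ → ℕ)) (l : List ℕ) (j : ℕ)
    (hj : j < PCM_K f D U l) : PCM_P f D U l j (PCM_v f D U l j) :=
  Classical.epsilon_spec (PCM_KS f D U l j hj)

/-- The list map of a partial continuous function. -/
noncomputable def PCM_map (f : (ℕ → ℕ) → C) (D : Set (ℕ → ℕ)) (U : ℕ → Set (ℕ → ℕ)) :
    LMap ℕ Bool where
  fn l := ini (PCM_v f D U l) (PCM_K f D U l)
  mono l l' h := by
    refine LCT_prefix _ _ _ _ ?_ ?_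
    · refine PCM_Kle f D U l' _ ((PCM_Klen f D U l).trans h.length_le) ?_
      intro j hj
      obtain ⟨b, hb⟩ := PCM_KS f D U l j hj
      exact ⟨b, PCM_mono h hb⟩
    · intro j hj
      have h1 := PCM_mono h (PCM_vP f D U l j hj)
      have h2 : PCM_P f D U l' j (PCM_v f D U l' j) := Classical.epsilon_spec ⟨_, h1⟩
      exact PCM_uniq h1 h2

theorem PCM_nhd (z : ℕ → ℕ) {t : Set (ℕ → ℕ)} (ht : t ∈ nhds z) :
    ∃ n, ∀ u : ℕ → ℕ, ini u n = ini z n → u ∈ t := by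
  rw [(PiNat.isTopologicalBasis_cylinders (fun _ : ℕ => ℕ)).mem_nhds_iff] at ht
  obtain ⟨s, ⟨x, n, rfl⟩, hz, hsub⟩ := ht
  refine ⟨n, fun u hu => hsub ?_⟩
  rw [PiNat.mem_cylinder_iff] at hz ⊢
  intro i hi
  rw [(LCT_ini u z n).1 hu i hi, hz i hi]

theorem PCM_take (z : ℕ → ℕ) {a c : ℕ} (h : a ≤ c) : (ini z c).take a = ini z a :=
  LCT_take z a c h

theorem PCM_dec {f : (ℕ → ℕ) → C} {D : Set (ℕ → ℕ)} {U : ℕ → Set (ℕ → ℕ)}
    (hU : ∀ n, IsOpen (U n)) (hD : D = ⋂ n, U n) (hf : ContinuousOn f D) {z : ℕ → ℕ} (hz : z ∈ D)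
    (j : ℕ) : ∃ n, ∀ n', n ≤ n' → PCM_P f D U (ini z n') j (f z j) := by
  have hzU : z ∈ U j := by
    rw [hD] at hz
    exact Set.mem_iInter.1 hz j
  obtain ⟨n1, h1⟩ := PCM_nhd z ((hU j).mem_nhds hzU)
  have hc : ContinuousWithinAt (fun u => f u j) D z :=
    ((continuous_apply j).continuousAt.comp_continuousWithinAt (hf z hz))
  have h2 : {u : ℕ → ℕ | f u j = f z j} ∈ nhdsWithin z D :=
    hc ((isOpen_discrete ({f z j} : Set Bool)).mem_nhds rfl)
  obtain ⟨t, ht, hzt, hsub⟩ := mem_nhdsWithin.1 h2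
  obtain ⟨n2, h3⟩ := PCM_nhd z (ht.mem_nhds hzt)
  refine ⟨max n1 n2, fun n' hn' => ⟨max n1 n2, by rw [LCT_len]; exact hn', ?_, ?_, ?_⟩⟩
  · intro u hu
    rw [PCM_take z hn'] at hu
    refine h1 u ?_
    have h4 := congrArg (List.take n1) hu
    rwa [LCT_take _ _ _ (le_max_left n1 n2), LCT_take _ _ _ (le_max_left n1 n2)] at h4
  · exact ⟨z, hz, (PCM_take z hn').symm⟩
  · intro u huD hu
    rw [PCM_take z hn'] at hu
    refine hsub ⟨h3 u ?_, huD⟩
    have h4 := congrArg (List.take n2) hu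
    rwa [LCT_take _ _ _ (le_max_right n1 n2), LCT_take _ _ _ (le_max_right n1 n2)] at h4

theorem PCM_lt {f : (ℕ → ℕ) → C} {D : Set (ℕ → ℕ)} {U : ℕ → Set (ℕ → ℕ)} {z : ℕ → ℕ}
    (hz : z ∈ D) {n j : ℕ} (hj : j < PCM_K f D U (ini z n)) : PCM_v f D U (ini z n) j = f z j := by
  obtain ⟨m, hm, -, -, h3⟩ := PCM_vP f D U (ini z n) j hj
  rw [LCT_len] at hm
  exact (h3 z hz (PCM_take z hm).symm).symm

theorem p_PCM (hV : Stmt_LVC) : Stmt_PCM := by
  intro f ⟨D, hD, hf, hout⟩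
  obtain ⟨U, hU, hDU⟩ := isGδ_iff_eq_iInter_nat.1 hD
  refine ⟨PCM_map f D U, fun z => ?_⟩
  have hlen : ∀ n, ((PCM_map f D U).fn (ini z n)).length = PCM_K f D U (ini z n) := fun n =>
    LCT_len _ _
  by_cases hz : z ∈ D
  · have hdom : (PCM_map f D U).dom z := by
      intro k
      have h1 : ∀ k, ∃ n, ∀ n', n ≤ n' → ∀ j < k, PCM_P f D U (ini z n') j (f z j) := by
        intro k
        induction k with
        | zero => exact ⟨0, fun n' _ j hj => absurd hj (Nat.not_lt_zero _)⟩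
        | succ k ih =>
          obtain ⟨n1, h1⟩ := ih
          obtain ⟨n2, h2⟩ := PCM_dec hU hDU hf hz k
          refine ⟨max n1 n2, fun n' hn' j hj => ?_⟩
          rcases Nat.lt_succ_iff_lt_or_eq.1 hj with h | h
          · exact h1 n' ((le_max_left _ _).trans hn') j h
          · subst h
            exact h2 n' ((le_max_right _ _).trans hn')
      obtain ⟨n, hn⟩ := h1 k
      refine ⟨max n k, ?_⟩
      rw [hlen]
      refine PCM_Kle f D U _ _ ?_ ?_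
      · rw [LCT_len]
        exact le_max_right _ _
      · intro j hj
        exact ⟨_, hn _ (le_max_left _ _) j hj⟩
    rw [pt, if_pos hdom]
    funext m
    obtain ⟨n, hn⟩ := hdom (m + 1)
    rw [hlen] at hn
    refine (hV ℕ Bool Bool (PCM_map f D U) ⟨fun l => l, fun l l' h => h⟩ z).1 n m (f z m) ?_
    show (ini (PCM_v f D U (ini z n)) (PCM_K f D U (ini z n)))[m]? = some (f z m)
    rw [LCT_get _ _ _ (by omega : m < PCM_K f D U (ini z n)), PCM_lt hz (by omega)]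
  · have hdom : ¬ (PCM_map f D U).dom z := by
      intro hdom
      apply hz
      rw [hDU]
      refine Set.mem_iInter.2 fun j => ?_
      obtain ⟨n, hn⟩ := hdom (j + 1)
      rw [hlen] at hn
      obtain ⟨b, m, hm, h1, -, -⟩ := PCM_KS f D U (ini z n) j (by omega)
      rw [LCT_len] at hm
      exact h1 z (PCM_take z hm).symm
    rw [pt, if_neg hdom, hout z hz]

end Pool.LG
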