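import Pool.Agent.Work.MP_f36782_lg.Interface
import Pool.Agent.Work.MP_f36782_lf.B_STI

set_option autoImplicit false

/-! Block STR: the runs in which the winner is the attacker (helper46; compare B_STI). -/

open MeasureTheory Pool.Agent.Work.RamseyAD Pool.LF

namespace Pool.LG

/-- A set which does not meet the intervals of one player in an infinite set is almost contained in
the intervals of the other one. -/
theorem STR_almost (hOWN : Stmt_OWN) (p : ℕ) (hp : p < 2) (w : ℕ → ℕ)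
    (hw : ∀ N, ∃ i, N ≤ len w i) (y : C) (h : ¬ Hit y (own (1 - p) w)) :
    ∃ n, ∀ k, n ≤ k → y k = true → k ∈ own p w := by
  classical
  by_contra hcon
  push Not at hcon
  obtain ⟨x, hx⟩ : ∃ x : C, ∀ k, x k = true ↔ y k = true ∧ k ∉ own p w :=
    ⟨fun k => decide (y k = true ∧ k ∉ own p w), fun k => by rw [decide_eq_true_iff]⟩
  have h1 : Inf x := by
    intro n
    obtain ⟨k, hk, h2, h3⟩ := hcon n
    exact ⟨k, hk, (hx k).2 ⟨h2, h3⟩⟩
  have h2 : ¬ Hit x (own (1 - p) w) := by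
    intro h3
    apply h
    intro n
    obtain ⟨k, hk, h4, h5⟩ := h3 n
    exact ⟨k, hk, ((hx k).1 h4).1, h5⟩
  have h3 : ¬ Hit x (own p w) := by
    intro h3
    obtain ⟨k, -, h4, h5⟩ := h3 0
    exact ((hx k).1 h4).2 h5
  have hcase : p = 0 ∨ p = 1 := by omega
  rcases hcase with rfl | rfl
  · exact h3 (hOWN w x hw h1 h2)
  · exact h2 (hOWN w x hw h1 h3)

/-- The closure of a subset of the compatible set under the old rules is contained in the
compatible set. -/
theorem STR_sub (c d : Pnt) (hle : c.Le d) (A : Set C) (hA : Cmp A d) (S : Set C) (hS : S ⊆ A)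
    (x : C) (h : Cl c.R S x) : x ∈ A := by
  induction h with
  | base x h => exact hS h
  | step e x h hd hc ih =>
    obtain ⟨e', he'⟩ := hle.2.2.2.1 e
    rw [← he'] at h hd ih
    exact (hA.cl x).2 (Cl.step e' x h hd fun β hβ => (hA.cl _).1 (ih β hβ))

theorem p_STR (hOWN : Stmt_OWN) (hBRF : Stmt_BRF) (hFMA : Stmt_FMA) (hLVC : Stmt_LVC)
    (hFRM : Stmt_FRM) : Stmt_STR := by
  intro F c o G hc p hp E B z w hB hmv hlen hK hzE b hb d hd hle hN hU hlast A hA
  obtain ⟨K, hK⟩ := hK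
  obtain ⟨-, -, -, -, -, hfr, -⟩ := hFRM B hB G.γ
  obtain ⟨hb1, hb2, hb3⟩ := hb
  rw [hmv] at hb2 hb3
  have hp1 : 1 - (1 - p) = p := by omega
  -- the chosen ports are in `A`
  have hport : ∀ j ∈ b, pt (G.γ j) z ∈ A := by
    intro j hj
    obtain ⟨p1, p2, p3⟩ := hb1 hj
    rw [hmv] at p1 p2 p3
    obtain ⟨n, hn⟩ := STR_almost hOWN p hp w hlen _ p2
    have hbr : InBr B z (pt (G.γ j) z) := ⟨max n K, fun m hm hmt =>
      hK m (hn m (le_trans (le_max_left _ _) hm) hmt) (le_trans (le_max_right _ _) hm)⟩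
    have hhit := STI_hit B z _ p1 hbr
    rcases hfr j z hhit with hu | hu
    · exact hA.subP ((hU _ hu p3 hbr).1 ⟨j, hj, STI_refl _⟩)
    · exact absurd ⟨p1, z, hbr⟩ hu.1
  have hSb : SbE G.γ z ↑b ⊆ A := by
    rintro x ⟨j, hj, N, hN⟩
    exact (hA.tail x _ ⟨N, hN⟩).2 (hport j hj)
  have hfst : o.fst z A := by
    obtain ⟨n, hn1, hn2⟩ := hb2
    refine ⟨n, hn1, fun i hi => ?_⟩
    have h1 : Cl c.R (c.P ∪ SbE G.γ z ↑b) (pt (o.α i) z) := hn2 i hi
    exact STR_sub c d hle A hA _ (Set.union_subset (hle.1.trans hA.subP) hSb) _ h1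
  have hitB : ∀ x : C, Hit x (own p w) → Hit x (Br B z) := by
    intro x hh n
    obtain ⟨k, hk, h1, h2⟩ := hh (max n K)
    exact ⟨k, le_trans (le_max_left _ _) hk, h1, hK k h2 (le_trans (le_max_right _ _) hk)⟩
  have hpure : ∀ x i, x = pt (G.γ i) z → Inf x → x ∈ Fre c → ¬ Hit x (own p w) →
      Cl c.R (c.P ∪ SbE G.γ z ↑b ∪ SbE G.γ z (PuE c G.γ (1 - p) w)) x := by
    intro x i hi hinf hfree hh
    refine Cl.base x (Or.inr ⟨i, ⟨?_, ?_, ?_⟩, ?_⟩)
    · rw [hmv, ← hi]
      exact hinf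
    · rw [hmv, ← hi, hp1]
      exact hh
    · rw [hmv, ← hi]
      exact hfree
    · rw [hi]
      exact STI_refl _
  -- the ports in `A`
  have hclaim : ∀ x, Cl d.R (A \ d.Y) x → ∀ i, x = pt (G.γ i) z →
      Cl c.R (c.P ∪ SbE G.γ z ↑b ∪ SbE G.γ z (PuE c G.γ (1 - p) w)) x := by
    intro x hx
    induction hx with
    | base x hx =>
      intro i hi
      obtain ⟨hxA, hxY⟩ := hx
      have hxY' : x ∉ c.Y := fun h => hxY (hle.2.2.1 h)
      by_cases hxP : x ∈ c.P
      · exact Cl.base x (Or.inl (Or.inl hxP))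
      have hxQ : x ∉ c.Q := fun h => hA.disQ x hxA (hle.2.1 h)
      have hfree : x ∈ Fre c := ⟨hxP, hxQ, hxY'⟩
      have hinf := hA.inf x hxA
      by_cases hh : Hit x (own p w)
      · have hhit : Hit x (Br B z) := hitB x hh
        have hcase : x ∈ Uc B G.γ ∨ x ∈ Un B G.γ := by
          rw [hi] at hhit ⊢
          exact hfr i z hhit
        rcases hcase with hu | hu
        · obtain ⟨⟨-, z', hz'⟩, -⟩ := id hu
          have he := STI_same hBRF B hB z z' x hhit hz'
          rw [← he] at hz'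
          by_cases hj : ∃ j ∈ b, AEq x (pt (G.γ j) z)
          · exact Cl.base x (Or.inl (Or.inr hj))
          · exact absurd ((hU x hu hfree hz').2 hj) (hA.disQ x hxA)
        · exact absurd (hN x hfree hu) (hA.disQ x hxA)
      · exact hpure x i hi hinf hfree hh
    | step e x h hdom hcl ih =>
      intro i hi
      have hxA : x ∈ A := (hA.cl x).2 (Cl.step e x h hdom hcl)
      have hxinf : Inf x := hA.inf x hxA
      by_cases hxY : x ∈ c.Y
      · obtain ⟨e', he'⟩ := hle.2.2.2.2 e x h hxY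
        have key : ∀ β ∈ (c.R e').L,
            Cl c.R (c.P ∪ SbE G.γ z ↑b ∪ SbE G.γ z (PuE c G.γ (1 - p) w)) (β.val x) := by
          intro β hβ
          obtain ⟨j', hj'⟩ := G.clos i e' β hβ
          have hβd : β ∈ (d.R e).L := by
            rw [← he']
            exact hβ
          exact ih β hβd j' (STI_port hLVC _ _ β z x hxinf hi (hdom β hβd) hj')
        rw [← he'] at h hdom
        exact Cl.step e' x h hdom key
      · have hdY : x ∈ d.Y := hd.sub e h
        have hfree : x ∈ Fre c := ⟨fun h => hd.dPY x (hle.1 h) hdY,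
          fun h => hd.dQY x (hle.2.1 h) hdY, hxY⟩
        obtain ⟨z', hz'E, hz', -⟩ := hlast e x A hfree
          ⟨h, fun β hβ => ⟨hdom β hβ, (hA.cl _).2 (hcl β hβ)⟩⟩
        refine hpure x i hi hxinf hfree fun hh => ?_
        have he := STI_same hBRF B hB z z' x (hitB x hh) hz'
        rw [← he] at hz'E
        exact hz'E hzE
  refine ⟨hfst, fun hsnd => hb3 ?_⟩
  refine (hFMA _ _ o.φ).2 _ _ _ (fun l _ hl => ?_) hsnd
  change Cl c.R (c.P ∪ SbE G.γ z ↑b ∪ SbE G.γ z (PuE c G.γ (1 - p) w)) (pt (o.α l) z)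
  exact hclaim _ ((hA.cl _).1 hl) (G.ι l) (by rw [G.base])

end Pool.LG
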