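import Pool.Agent.Work.MP_f36782_lg.Interface
import Pool.Agent.Work.MP_f36782_lf.Final5

set_option autoImplicit false

/-! # MP_f36782_lc, THEOREM LF, part Q: assembly -/

open MeasureTheory Pool.Agent.Work.RamseyAD Pool.LF

namespace Pool.LG

/-- The payoff for player I of the auxiliary game. -/
def fin8_W {F : Set (Set (ℕ → ℕ))} (c : Pnt) (o : OpD F) (G : Gam c o) (B : Set (ℕ → ℕ)) :
    Set (ℕ → ℕ) :=
  {w | (mv w ∈ B ∧ ∃ b : Finset ℕ, Gp c o G 0 w ↑b) ∨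
    (mv w ∉ B ∧ ¬ ∃ b : Finset ℕ, Gp c o G 1 w ↑b)}

theorem fin8_ex (hPAX : Stmt_PAX) {F : Set (Set (ℕ → ℕ))} (hF : DetBorel F) (c : Pnt) (hc : Cok F c)
    (o : OpD F) (G : Gam c o) (a : ℕ) : {w | ∃ b : Finset ℕ, Gp c o G a w ↑b} ∈ F := by
  classical
  have h0 : {w | ∃ b : Finset ℕ, Gp c o G a w ↑b} =
      ⋃ n : ℕ, {w | ∃ b : Finset ℕ, Encodable.decode n = some b ∧ Gp c o G a w ↑b} := by
    ext w
    constructor
    · rintro ⟨b, hb⟩
      exact Set.mem_iUnion.2 ⟨Encodable.encode b, b, Encodable.encodek b, hb⟩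
    · intro h
      obtain ⟨n, b, -, h2⟩ := Set.mem_iUnion.1 h
      exact ⟨b, h2⟩
  rw [h0]
  refine hF.union _ fun n => ?_
  rcases h : (Encodable.decode n : Option (Finset ℕ)) with _ | b
  · have h1 : {w : ℕ → ℕ | ∃ b : Finset ℕ, (none : Option (Finset ℕ)) = some b ∧
        Gp c o G a w ↑b} = ∅ := by
      ext w
      simp
    rw [h1]
    exact hF.isOpen _ isOpen_empty
  · have h1 : {w : ℕ → ℕ | ∃ b' : Finset ℕ, (some b : Option (Finset ℕ)) = some b' ∧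
        Gp c o G a w ↑b'} = {w | Gp c o G a w ↑b} := by
      ext w
      constructor
      · rintro ⟨b', h2, h3⟩
        cases h2
        exact h3
      · intro h2
        exact ⟨b, rfl, h2⟩
    rw [h1]
    exact hPAX F hF c o G hc a b

theorem fin8_inW (hPAX : Stmt_PAX) {F : Set (Set (ℕ → ℕ))} (hF : DetBorel F) (c : Pnt)
    (hc : Cok F c) (o : OpD F) (G : Gam c o) (B : Set (ℕ → ℕ)) (hB : B ∈ F) :
    fin8_W c o G B ∈ F := by
  have hA := hF.alg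
  have hmv : {w | mv w ∈ B} ∈ F := hA.preimage B hB mv (by
    refine continuous_pi fun i => ?_
    exact (continuous_of_discreteTopology (f := fun a : ℕ => (Nat.unpair a).1)).comp
      (continuous_apply i))
  have h0 := fin8_ex hPAX hF c hc o G 0
  have h1 := fin8_ex hPAX hF c hc o G 1
  have hun : ∀ S T : Set (ℕ → ℕ), S ∈ F → T ∈ F → S ∪ T ∈ F := by
    intro S T hS hT
    have h2 := hF.union (fun n => if n = 0 then S else T) (fun n => by
      by_cases hn : n = 0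
      · simp only [hn, if_true]
        exact hS
      · simp only [hn, if_false]
        exact hT)
    have h3 : (⋃ n : ℕ, if n = 0 then S else T) = S ∪ T := by
      ext z
      rw [Set.mem_iUnion]
      constructor
      · rintro ⟨n, hn⟩
        by_cases h4 : n = 0
        · rw [if_pos h4] at hn
          exact Or.inl hn
        · rw [if_neg h4] at hn
          exact Or.inr hn
      · rintro (h4 | h4)
        · exact ⟨0, by rw [if_pos rfl]; exact h4⟩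
        · exact ⟨1, by rw [if_neg one_ne_zero]; exact h4⟩
    rw [← h3]
    exact h2
  have hin : ∀ S T : Set (ℕ → ℕ), S ∈ F → T ∈ F → S ∩ T ∈ F := by
    intro S T hS hT
    have h2 := hF.compl _ (hun _ _ (hF.compl S hS) (hF.compl T hT))
    rwa [Set.compl_union, compl_compl, compl_compl] at h2
  exact hun _ _ (hin _ _ hmv h0) (hin _ _ (hF.compl _ hmv) (hF.compl _ h1))

/-- The stage. -/
theorem fin8_stage (hENG : Stmt_ENG) (hPAX : Stmt_PAX) (hSIC : Stmt_SIC) (hSTM : Stmt_STM)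
    (hSTR : Stmt_STR) (hSTT : Stmt_STT) (F : Set (Set (ℕ → ℕ))) (hF : DetBorel F) (c : Pnt)
    (hc : Cok F c) (o : OpD F) (B : Set (ℕ → ℕ)) (hB : B ∈ F) :
    ∃ d : Pnt, Cok F d ∧ c.Le d ∧ ∀ A, Cmp A d → Determined {z | z ∈ B ↔ z ∈ o.op A} := by
  classical
  obtain ⟨G⟩ := hENG F c o
  -- the general stage
  have key : ∀ (p : ℕ) (_ : p < 2) (E : Set (ℕ → ℕ)) (_ : E ∈ F) (T : List ℕ → ℕ),
      (∀ w, Cons p T w → (mv w ∈ E → ∃ b : Finset ℕ, Gp c o G p w ↑b) ∧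
        (mv w ∉ E → ∀ b : Finset ℕ, ¬ Gp c o G (1 - p) w ↑b)) →
      ∃ d : Pnt, Cok F d ∧ c.Le d ∧ ∀ A, Cmp A d →
        ∃ s : List ℕ → ℕ, ∀ z, Cons p s z → (z ∈ E ↔ z ∈ o.op A) := by
    intro p hp E hE T hT
    obtain ⟨s, Φ, Bl, hBl, hΦ, hs⟩ := hSIC p T hp
    obtain ⟨d, h1, h2, h3, h4, h5, h6⟩ := hSTM F hF c o G hc p E hE Bl Φ hBl hΦ
    refine ⟨d, h1, h2, fun A hA => ⟨s, fun z hz => ?_⟩⟩
    obtain ⟨e1, e2, e3, e4⟩ := hs z hz
    obtain ⟨t1, t2⟩ := hT (Φ z) e1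
    rw [e2] at t1 t2
    by_cases hzE : z ∈ E
    · obtain ⟨b, hb1, hb2⟩ := h4 z hzE (t1 hzE)
      have h7 := hSTR F c o G hc p hp E Bl z (Φ z) hBl e2 e3 e4 hzE b hb1 d h1 h2 h3 hb2
        (fun e x A' hx hSat => by
          obtain ⟨z', n, g1, g2, g3, -⟩ := h6 e x A' hx hSat
          exact ⟨z', g1, g2, g3⟩) A hA
      exact ⟨fun _ => h7, fun _ => hzE⟩
    · have h7 := hSTT F c o G hc p hp Bl z (Φ z) hBl e2 e3 e4 (t2 hzE) d h1 h2 h3
        (fun x hx1 hx2 hx3 => h5 z hzE x hx1 hx2 hx3)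
        (fun e x A' hx hSat => by
          obtain ⟨z', n, -, g2, g3, g4, g5⟩ := h6 e x A' hx hSat
          exact ⟨z', n, g2, g3, g4, g5⟩) A hA
      exact ⟨fun h => absurd h hzE, fun h => absurd h h7⟩
  rcases hF.det _ (fin8_inW hPAX hF c hc o G B hB) with ⟨σ, hσ⟩ | ⟨τ, hτ⟩
  · obtain ⟨d, h1, h2, h3⟩ := key 0 (by norm_num) B hB σ (fun w hw => by
      have h4 := hσ w fun n => hw (2 * n) (by omega)
      rcases h4 with ⟨h5, h6⟩ | ⟨h5, h6⟩
      · exact ⟨fun _ => h6, fun h => absurd h5 h⟩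
      · exact ⟨fun h => absurd h h5, fun _ b hb => h6 ⟨b, hb⟩⟩)
    refine ⟨d, h1, h2, fun A hA => Or.inl ?_⟩
    obtain ⟨s, hs⟩ := h3 A hA
    refine ⟨s, fun z hz => hs z fun i hi => ?_⟩
    obtain ⟨n, rfl⟩ : ∃ n, i = 2 * n := ⟨i / 2, by omega⟩
    exact hz n
  · obtain ⟨d, h1, h2, h3⟩ := key 1 (by norm_num) Bᶜ (hF.compl B hB) τ (fun w hw => by
      have h4 := hτ w fun n => hw (2 * n + 1) (by omega)
      constructor
      · intro h5
        by_contra h6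
        exact h4 (Or.inr ⟨h5, h6⟩)
      · intro h5 b hb
        have h7 : mv w ∈ B := by
          by_contra h8
          exact h5 h8
        exact h4 (Or.inl ⟨h7, b, hb⟩))
    refine ⟨d, h1, h2, fun A hA => Or.inr ?_⟩
    obtain ⟨s, hs⟩ := h3 A hA
    refine ⟨s, fun z hz hin => ?_⟩
    have h5 := hs z fun i hi => by
      obtain ⟨n, rfl⟩ : ∃ n, i = 2 * n + 1 := ⟨i / 2, by omega⟩
      exact hz n
    have h6 : z ∈ B ↔ z ∈ o.op A := hin
    by_cases h7 : z ∈ B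
    · exact (h5.2 (h6.1 h7)) h7
    · exact h7 (h6.2 (h5.1 h7))

theorem fin8_aux (hENG : Stmt_ENG) (hPAX : Stmt_PAX) (hSIC : Stmt_SIC) (hSTM : Stmt_STM)
    (hSTR : Stmt_STR) (hSTT : Stmt_STT) (hLIC : Stmt_LIC) (hCHN : Stmt_CHN) (hFNA : Stmt_FNA)
    (F : Set (Set (ℕ → ℕ))) (hF : DetBorel F) (T : Type)
    (hT : Cardinal.mk T ≤ Cardinal.aleph 1) (o : T → OpD F) (B : T → Set (ℕ → ℕ))
    (hB : ∀ t, B t ∈ F) :
    ∃ A : Set C, Tail A ∧ ¬ Ramsey A ∧ ∀ t, Determined {z | z ∈ B t ↔ z ∈ (o t).op A} := by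
  let Pt : Type := {c : Pnt // Cok F c}
  obtain ⟨g, hg, hch⟩ := hCHN Pt (fun c d => c.1.Le d.1) ⟨fin5_bot, fin5_bot_ok F hF⟩
    (fun c => fin5_le_refl c.1) (fun c d f => fin5_le_trans c.1 d.1 f.1)
    (fun c hc => by
      obtain ⟨d, h1, h2⟩ := hLIC F hF (fun n => (c n).1) (fun n => (c n).2) hc
      exact ⟨⟨d, h1⟩, h2⟩)
    T (fun t => {c | ∀ A, Cmp A c.1 → Determined {z | z ∈ B t ↔ z ∈ (o t).op A}}) hT
    (fun t c => by
      obtain ⟨d, h1, h2, h3⟩ := fin8_stage hENG hPAX hSIC hSTM hSTR hSTT F hF c.1 c.2 (o t) (B t)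
        (hB t)
      exact ⟨⟨d, h1⟩, h3, h2⟩)
  obtain ⟨A, hA1, hA2, hA3⟩ := hFNA F T (fun t => (g t).1) (fun t => (g t).2) hch
  exact ⟨A, hA1, hA2, fun t => hg t A (hA3 t)⟩

/-- The signed differences are closed under complements. -/
theorem fin8_compl {F : Set (Set (ℕ → ℕ))} (hF : DetBorel F) {S : Op}
    (hS : XDiff F PCont S) : XDiff F PCont (fun A => (S A)ᶜ) := by
  obtain ⟨B, V, V', hB, hV, hV', hA⟩ := hS
  refine ⟨Bᶜ, V, V', hF.compl B hB, hV, hV', fun A => ?_⟩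
  show (S A)ᶜ = _
  rw [hA A]
  ext z
  show ¬ (z ∈ B ↔ z ∈ V A \ V' A) ↔ (¬ z ∈ B ↔ z ∈ V A \ V' A)
  tauto

/-- Positive operations are signed differences. -/
theorem fin8_pos {F : Set (Set (ℕ → ℕ))} (hF : DetBorel F) {S : Op}
    (hS : PosOp F PCont S) : XDiff F PCont S := by
  refine ⟨∅, fun _ => Set.univ, S, hF.isOpen _ isOpen_empty,
    ⟨fun _ => Set.univ, fun _ => [], fun n => ⟨?_, ?_⟩, fun A => ?_⟩, hS, fun A => ?_⟩
  · exact hF.isOpen _ isOpen_univ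
  · intro f hf
    exact absurd hf (List.not_mem_nil)
  · ext z
    simp
  · ext z
    simp

/-- Part (1) of the theorem. -/
theorem fin8_main (hENG : Stmt_ENG) (hPAX : Stmt_PAX) (hSIC : Stmt_SIC) (hSTM : Stmt_STM)
    (hSTR : Stmt_STR) (hSTT : Stmt_STT) (hLIC : Stmt_LIC) (hCHN : Stmt_CHN) (hFNA : Stmt_FNA)
    (hDNX : Stmt_DNX) (F : Set (Set (ℕ → ℕ))) (hF : DetBorel F) (T : Type)
    (hT : Cardinal.mk T ≤ Cardinal.aleph 1) (S : T → Op) (hS : ∀ t, XDiff F PCont (S t)) :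
    ∃ A : Set C, Tail A ∧ ¬ Ramsey A ∧ ∀ t, Determined (S t A) ∧ Determined (S t A)ᶜ := by
  classical
  have h1 : ∀ t : T × Bool, ∃ (o : OpD F) (B : Set (ℕ → ℕ)), B ∈ F ∧ ∀ A,
      (if t.2 then (S t.1 A)ᶜ else S t.1 A) = {z | z ∈ B ↔ z ∈ o.op A} := by
    rintro ⟨t, b⟩
    cases b
    · exact hDNX F (S t) (hS t)
    · exact hDNX F _ (fin8_compl hF (hS t))
  choose o B hB ho using h1
  have hT2 : Cardinal.mk (T × Bool) ≤ Cardinal.aleph 1 := by
    have h2 : Cardinal.mk (T × Bool) = Cardinal.mk T * Cardinal.mk Bool := by simp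
    rw [h2]
    have h3 : Cardinal.mk Bool ≤ Cardinal.aleph 1 :=
      (Cardinal.mk_le_aleph0 (α := Bool)).trans (Cardinal.aleph0_le_aleph 1)
    exact (mul_le_mul' hT h3).trans (Cardinal.mul_eq_self (Cardinal.aleph0_le_aleph 1)).le
  obtain ⟨A, hA1, hA2, hA3⟩ := fin8_aux hENG hPAX hSIC hSTM hSTR hSTT hLIC hCHN hFNA F hF (T × Bool)
    hT2 o B hB
  refine ⟨A, hA1, hA2, fun t => ⟨?_, ?_⟩⟩
  · have h4 := hA3 (t, false)
    rw [← ho (t, false) A] at h4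
    simpa using h4
  · have h4 := hA3 (t, true)
    rw [← ho (t, true) A] at h4
    simpa using h4

end Pool.LG
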