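import Pool.Agent.Work.MP_f36782_lg.Interface
import Pool.Agent.Work.MP_f36782_lf.B_DNF

set_option autoImplicit false

/-! Block DNX: the data of a signed difference (compare `B_DNF.lean`). -/

open MeasureTheory Pool.Agent.Work.RamseyAD Pool.LF

namespace Pool.LG

/-- The maps which are allowed. -/
abbrev PM : Type := {f : (ℕ → ℕ) → C // PCont f}

theorem DNX_form (F : Set (Set (ℕ → ℕ))) (S : Op) (hS : PosOp F PCont S) :
    ∃ φ : Fm F PM, ∀ A, S A = {z | φ.tr (fun k => z ∈ k.1) (fun f => f.1 z ∈ A)} := by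
  induction hS with
  | const S h => exact ⟨Fm.base ⟨S, h⟩, fun A => rfl⟩
  | pre f h => exact ⟨Fm.pre ⟨f, h⟩, fun A => rfl⟩
  | union S h ih =>
    choose φ hφ using ih
    refine ⟨Fm.uni φ, fun A => ?_⟩
    ext z
    simp only [Set.mem_iUnion, Set.mem_setOf_eq, Fm.tr]
    refine exists_congr fun n => ?_
    rw [hφ n A]
    rfl
  | inter S h ih =>
    choose φ hφ using ih
    refine ⟨Fm.int φ, fun A => ?_⟩
    ext z
    simp only [Set.mem_iInter, Set.mem_setOf_eq, Fm.tr]
    refine forall_congr' fun n => ?_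
    rw [hφ n A]
    rfl

theorem DNX_const : PCont (fun _ _ => false) :=
  ⟨Set.univ, IsGδ.univ, continuous_const.continuousOn, fun z h => absurd (Set.mem_univ z) h⟩

theorem p_DNX (hPCM : Stmt_PCM) : Stmt_DNX := by
  classical
  intro F S hS
  obtain ⟨B, V, V', hB, ⟨D, L, hDL, hV⟩, hV', hS⟩ := hS
  obtain ⟨φ, hφ⟩ := DNX_form F V' hV'
  set T : Set ((ℕ → ℕ) → C) := insert (fun _ _ => false)
    ((⋃ n, {f | f ∈ L n}) ∪ (fun f : PM => f.1) '' φ.at) with hT
  have hTc : T.Countable := by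
    refine Set.Countable.insert _ (Set.Countable.union ?_ ((DNF_count φ).image _))
    exact Set.countable_iUnion fun n => (List.finite_toSet (L n)).countable
  have hTne : T.Nonempty := ⟨_, Set.mem_insert _ _⟩
  have hTcont : ∀ f ∈ T, PCont f := by
    rintro f (rfl | hf | ⟨g, -, rfl⟩)
    · exact DNX_const
    · obtain ⟨n, hn⟩ := Set.mem_iUnion.1 hf
      exact (hDL n).2 f hn
    · exact g.2
  obtain ⟨f, hf⟩ := hTc.exists_eq_range hTne
  have hfT : ∀ i, f i ∈ T := fun i => hf ▸ Set.mem_range_self i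
  choose α hα using fun i => hPCM (f i) (hTcont _ (hfT i))
  have hidx : ∀ g : (ℕ → ℕ) → C, ∃ i, g ∈ T → f i = g := by
    intro g
    by_cases hg : g ∈ T
    · rw [hf] at hg
      obtain ⟨i, hi⟩ := hg
      exact ⟨i, fun _ => hi⟩
    · exact ⟨0, fun h => absurd h hg⟩
  choose idx hidx using hidx
  have hL : ∀ n, ∀ g ∈ L n, f (idx g) = g := fun n g hg =>
    hidx g (Set.mem_insert_of_mem _ (Or.inl (Set.mem_iUnion.2 ⟨n, hg⟩)))
  have hA : ∀ g ∈ φ.at, f (idx g.1) = g.1 := fun g hg =>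
    hidx g.1 (Set.mem_insert_of_mem _ (Or.inr ⟨g, hg, rfl⟩))
  refine ⟨{ α := α, D := D, hD := fun n => (hDL n).1,
            N := fun n => ((L n).map idx).toFinset, φ := DNF_map (fun g : PM => idx g.1) φ },
    B, hB, fun A => ?_⟩
  rw [hS A]
  ext z
  refine iff_congr Iff.rfl (and_congr ?_ (not_congr ?_))
  · rw [hV A]
    refine exists_congr fun n => and_congr Iff.rfl ?_
    constructor
    · intro h i hi
      obtain ⟨g, hg, rfl⟩ := List.mem_map.1 (List.mem_toFinset.1 hi)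
      show pt (α (idx g)) z ∈ A
      rw [hα, hL n g hg]
      exact h g hg
    · intro h g hg
      have h1 : pt (α (idx g)) z ∈ A := h (idx g) (List.mem_toFinset.2 (List.mem_map.2 ⟨g, hg, rfl⟩))
      rw [hα, hL n g hg] at h1
      exact h1
  · rw [hφ A]
    refine (DNF_tr (fun g : PM => idx g.1) _ _ _ φ fun g hg => ?_).symm
    show pt (α (idx g.1)) z ∈ A ↔ g.1 z ∈ A
    rw [hα, hA g hg]

end Pool.LG
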