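import Pool.Agent.Work.MP_f36782_lf.Defs5

set_option autoImplicit false

/-!
# MP_f36782_lc, THEOREM LF, partial continuous maps: definition
-/

open Pool.Agent.Work.RamseyAD

namespace Pool.LF

/-- `f` is continuous on a `G_δ` set, and the value of `f` outside of this set is the empty set. -/
def PCont (f : (ℕ → ℕ) → C) : Prop :=
  ∃ D : Set (ℕ → ℕ), IsGδ D ∧ ContinuousOn f D ∧ ∀ z, z ∉ D → f z = fun _ => false

end Pool.LF
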