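import Pool.Agent.Work.MP_f36782_lf.Interface6
import Pool.Agent.Work.MP_f36782_lg.Defs

set_option autoImplicit false

/-!
# MP_f36782_lc, THEOREM LF, part Q: partial continuous maps

Parts M and N (`Interface5.lean`, `Interface6.lean`) for maps which are continuous on a `G_δ` set and
`∅` outside of it.  These are the maps `pt α`, `α` a monotone map between finite lists (PCM); totality of
the maps was only used in the construction of the rules, where it can be replaced by the fact that the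
members of `A` are infinite.
-/

open MeasureTheory Pool.Agent.Work.RamseyAD Pool.LF

namespace Pool.LG

/-- The data of an operation `V \ V'`: ports `α i`, `V` is true at `z` if for some `n` with
`z ∈ D n` the ports in `N n` are in `A`; `V'` is given by the formula `φ`, whose atoms are ports. -/
structure OpD (F : Set (Set (ℕ → ℕ))) where
  α : ℕ → LMap ℕ Bool
  D : ℕ → Set (ℕ → ℕ)
  hD : ∀ n, D n ∈ F
  N : ℕ → Finset ℕ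
  φ : Fm F ℕ

/-- `V` is true. -/
def OpD.fst {F : Set (Set (ℕ → ℕ))} (o : OpD F) (z : ℕ → ℕ) (A : Set C) : Prop :=
  ∃ n, z ∈ o.D n ∧ ∀ i ∈ o.N n, pt (o.α i) z ∈ A

/-- `V'` is true. -/
def OpD.snd {F : Set (Set (ℕ → ℕ))} (o : OpD F) (z : ℕ → ℕ) (A : Set C) : Prop :=
  o.φ.tr (fun k => z ∈ k.1) (fun i => pt (o.α i) z ∈ A)

/-- The operation. -/
def OpD.op {F : Set (Set (ℕ → ℕ))} (o : OpD F) (A : Set C) : Set (ℕ → ℕ) :=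
  {z | o.fst z A ∧ ¬ o.snd z A}

/-- An enumeration `γ` of all ports which are reachable by the rules. -/
structure Gam {F : Set (Set (ℕ → ℕ))} (c : Pnt) (o : OpD F) where
  γ : ℕ → LMap ℕ Bool
  ι : ℕ → ℕ
  base : ∀ i, γ (ι i) = o.α i
  clos : ∀ j e, ∀ β ∈ (c.R e).L, ∃ j', γ j' = β.comp (γ j)

/-- `b` is a good choice for the attacker `a` in the run `w`. -/
def Gp {F : Set (Set (ℕ → ℕ))} (c : Pnt) (o : OpD F) (G : Gam c o) (a : ℕ) (w : ℕ → ℕ)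
    (b : Set ℕ) : Prop :=
  b ⊆ PuE c G.γ a w ∧ o.fst (mv w) {x | Cl c.R (c.P ∪ SbE G.γ (mv w) b) x} ∧
    ¬ o.snd (mv w)
      {x | Cl c.R (c.P ∪ SbE G.γ (mv w) b ∪ SbE G.γ (mv w) (PuE c G.γ (1 - a) w)) x}

/-- Partial continuous maps are given by list maps. -/
def Stmt_PCM : Prop := ∀ f : (ℕ → ℕ) → C, PCont f → ∃ α : LMap ℕ Bool, ∀ z, pt α z = f z

/-- The data of a signed difference. -/
def Stmt_DNX : Prop := ∀ (F : Set (Set (ℕ → ℕ))) (S : Op), XDiff F PCont S →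
  ∃ (o : OpD F) (B : Set (ℕ → ℕ)), B ∈ F ∧ ∀ A, S A = {z | z ∈ B ↔ z ∈ o.op A}

/-- See `Pool.LF.Stmt_ENG`. -/
def Stmt_ENG : Prop := ∀ (F : Set (Set (ℕ → ℕ))) (c : Pnt) (o : OpD F), Nonempty (Gam c o)

/-- See `Pool.LF.Stmt_CLM`. -/
def Stmt_CLM : Prop := ∀ F : Set (Set (ℕ → ℕ)), DetBorel F → ∀ (c : Pnt) (o : OpD F) (G : Gam c o),
  Cok F c → ∀ T : (ℕ → ℕ) → Set C, (∀ j, {w | pt (G.γ j) (mv w) ∈ T w} ∈ F) →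
    ∀ j, {w | Cl c.R (T w) (pt (G.γ j) (mv w))} ∈ F

/-- See `Pool.LF.Stmt_PAX`. -/
def Stmt_PAX : Prop := ∀ F : Set (Set (ℕ → ℕ)), DetBorel F → ∀ (c : Pnt) (o : OpD F) (G : Gam c o),
  Cok F c → ∀ (a : ℕ) (b : Finset ℕ), {w | Gp c o G a w ↑b} ∈ F

/-- See `Pool.LF.Stmt_STM`. -/
def Stmt_STM : Prop := ∀ F : Set (Set (ℕ → ℕ)), DetBorel F → ∀ (c : Pnt) (o : OpD F) (G : Gam c o),
  Cok F c → ∀ (p : ℕ) (E : Set (ℕ → ℕ)), E ∈ F →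
  ∀ (B : List ℕ → Set ℕ) (Φ : (ℕ → ℕ) → (ℕ → ℕ)), Blk B → Continuous Φ →
  ∃ d : Pnt, Cok F d ∧ c.Le d ∧
    (∀ x ∈ Fre c, x ∈ Un B G.γ → x ∈ d.Q) ∧
    (∀ z ∈ E, (∃ b : Finset ℕ, Gp c o G p (Φ z) ↑b) → ∃ b : Finset ℕ, Gp c o G p (Φ z) ↑b ∧
      ∀ x ∈ Uc B G.γ, x ∈ Fre c → InBr B z x →
        ((∃ j ∈ b, AEq x (pt (G.γ j) z)) → x ∈ d.P) ∧ ((¬ ∃ j ∈ b, AEq x (pt (G.γ j) z)) → x ∈ d.Q)) ∧
    (∀ z, z ∉ E → ∀ x ∈ Uc B G.γ, x ∈ Fre c → InBr B z x →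
      (¬ Hit x (own (1 - p) (Φ z)) →
        x ∈ d.Y ∧ ∀ A, (∀ y ∈ A, Inf y) → o.fst z A → ∃ e, Sat A (d.R e) x) ∧
      (Hit x (own (1 - p) (Φ z)) → x ∈ d.Q)) ∧
    ∀ e x A, x ∈ Fre c → Sat A (d.R e) x →
      ∃ z n, z ∉ E ∧ InBr B z x ∧ Inf x ∧ z ∈ o.D n ∧
        ∀ i ∈ o.N n, ∃ β ∈ (d.R e).L, β.val x = pt (o.α i) z

/-- See `Pool.LF.Stmt_STR`. -/
def Stmt_STR : Prop := ∀ F : Set (Set (ℕ → ℕ)), ∀ (c : Pnt) (o : OpD F) (G : Gam c o),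
  Cok F c → ∀ p < 2, ∀ (E : Set (ℕ → ℕ)) (B : List ℕ → Set ℕ) (z w : ℕ → ℕ), Blk B → mv w = z →
  (∀ N, ∃ i, N ≤ len w i) → (∃ K, ∀ m ∈ own p w, K ≤ m → m ∈ Br B z) → z ∈ E →
  ∀ (b : Finset ℕ), Gp c o G p w ↑b → ∀ d : Pnt, Cok F d → c.Le d →
    (∀ x ∈ Fre c, x ∈ Un B G.γ → x ∈ d.Q) →
    (∀ x ∈ Uc B G.γ, x ∈ Fre c → InBr B z x →
      ((∃ j ∈ b, AEq x (pt (G.γ j) z)) → x ∈ d.P) ∧ ((¬ ∃ j ∈ b, AEq x (pt (G.γ j) z)) → x ∈ d.Q)) →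
    (∀ e x A, x ∈ Fre c → Sat A (d.R e) x → ∃ z', z' ∉ E ∧ InBr B z' x ∧ Inf x) →
    ∀ A, Cmp A d → z ∈ o.op A

/-- See `Pool.LF.Stmt_STT`. -/
def Stmt_STT : Prop := ∀ F : Set (Set (ℕ → ℕ)), ∀ (c : Pnt) (o : OpD F) (G : Gam c o),
  Cok F c → ∀ p < 2, ∀ (B : List ℕ → Set ℕ) (z w : ℕ → ℕ), Blk B → mv w = z →
  (∀ N, ∃ i, N ≤ len w i) → (∃ K, ∀ m ∈ own p w, K ≤ m → m ∈ Br B z) →
  (∀ b : Finset ℕ, ¬ Gp c o G (1 - p) w ↑b) → ∀ d : Pnt, Cok F d → c.Le d →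
    (∀ x ∈ Fre c, x ∈ Un B G.γ → x ∈ d.Q) →
    (∀ x ∈ Uc B G.γ, x ∈ Fre c → InBr B z x →
      (¬ Hit x (own (1 - p) w) →
        x ∈ d.Y ∧ ∀ A, (∀ y ∈ A, Inf y) → o.fst z A → ∃ e, Sat A (d.R e) x) ∧
      (Hit x (own (1 - p) w) → x ∈ d.Q)) →
    (∀ e x A, x ∈ Fre c → Sat A (d.R e) x → ∃ z' n, InBr B z' x ∧ Inf x ∧ z' ∈ o.D n ∧
      ∀ i ∈ o.N n, ∃ β ∈ (d.R e).L, β.val x = pt (o.α i) z') →
    ∀ A, Cmp A d → z ∉ o.op A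

end Pool.LG
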